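import Mathlib

set_option autoImplicit false

namespace Pool.Agent.Results.MP_953c35_gt.No

open Set Filter Topology

def IdealBase {X : Type} (𝒜 : Set (Set X)) : Prop :=
  ∀ A₁ ∈ 𝒜, ∀ A₂ ∈ 𝒜, ∃ A₃ ∈ 𝒜, A₁ ∪ A₂ ⊆ A₃

/-- `𝒰` belongs to `O(X, ℬ)` -/
def OC {X : Type} [TopologicalSpace X] (ℬ 𝒰 : Set (Set X)) : Prop :=
  (∀ U ∈ 𝒰, IsOpen U) ∧ ⋃₀ 𝒰 = univ ∧ univ ∉ 𝒰 ∧ ∀ B ∈ ℬ, ∃ U ∈ 𝒰, B ⊆ U

/-- `𝒰` belongs to `Γ(X, ℬ)` -/
def GC {X : Type} [TopologicalSpace X] (ℬ 𝒰 : Set (Set X)) : Prop :=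
  𝒰.Infinite ∧ (∀ U ∈ 𝒰, IsOpen U) ∧ ⋃₀ 𝒰 = univ ∧ univ ∉ 𝒰 ∧
    ∀ B ∈ ℬ, {U ∈ 𝒰 | ¬ B ⊆ U}.Finite

/-- Two has a winning Markov strategy in `G_1(N[𝒜], ¬ P)` -/
def MarkovWin {X : Type} [TopologicalSpace X] (𝒜 : Set (Set X)) (P : Set (Set X) → Prop) : Prop :=
  ∃ τ : Set X → ℕ → Set X, (∀ A ∈ 𝒜, ∀ n, IsOpen (τ A n) ∧ A ⊆ τ A n ∧ τ A n ≠ univ) ∧
    ∀ A : ℕ → Set X, (∀ n, A n ∈ 𝒜) → ¬ P (range fun n => τ (A n) n)

def D : Type := (Cardinal.aleph 1 : Cardinal.{0}).ord.ToType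

noncomputable instance : LinearOrder D := inferInstanceAs (LinearOrder (Ordinal.ToType _))

instance : WellFoundedLT D := inferInstanceAs (WellFoundedLT (Ordinal.ToType _))

instance : TopologicalSpace D := ⊥

instance : DiscreteTopology D := ⟨rfl⟩

theorem cnt (x : D) : (Iic x).Countable := by
  rw [← Iio_insert]
  refine Countable.insert _ ?_
  rw [← Cardinal.le_aleph0_iff_set_countable, ← Cardinal.lt_aleph_one_iff]
  exact Cardinal.mk_Iio_toType_ord_lt x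

theorem unc : ¬ (univ : Set D).Countable := by
  rw [← Cardinal.le_aleph0_iff_set_countable, Cardinal.mk_univ, not_le]
  have : Cardinal.mk D = Cardinal.aleph 1 := Cardinal.mk_ord_toType _
  rw [this]
  exact Cardinal.aleph0_lt_aleph_one

abbrev X : Type := OnePoint D

def 𝒜 : Set (Set X) := {A | A.Countable ∧ OnePoint.infty ∈ A}

def ℬ : Set (Set X) := {B | ∃ E : Set D, B = OnePoint.some '' E ∧ ∀ x ∈ E, (E ∩ Iio x).Finite}

theorem fin_compl {U : Set X} (hU : IsOpen U) (h : OnePoint.infty ∈ U) :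
    {x : D | (x : X) ∉ U}.Finite :=
  ((OnePoint.isOpen_iff_of_mem h).1 hU).2.finite_of_discrete

theorem exists_pt {U : Set X} (h : OnePoint.infty ∈ U) (hne : U ≠ univ) :
    ∃ x : D, (x : X) ∉ U := by
  obtain ⟨y, hy⟩ := (ne_univ_iff_exists_notMem U).1 hne
  induction y using OnePoint.rec with
  | infty => exact absurd h hy
  | coe x => exact ⟨x, hy⟩

theorem exists_out {A : Set X} (h : A.Countable) : ∃ x : D, (x : X) ∉ A := by
  by_contra hc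
  push Not at hc
  exact unc ((h.preimage_of_injOn OnePoint.coe_injective.injOn).mono fun x _ => hc x)

theorem tall {E : Set D} (h : E.Infinite) :
    ∃ B ⊆ E, B.Infinite ∧ ∀ x ∈ B, (B ∩ Iio x).Finite := by
  refine ⟨{x ∈ E | (E ∩ Iio x).Finite}, sep_subset _ _, fun hf => ?_,
    fun x hx => hx.2.subset (inter_subset_inter_left _ (sep_subset _ _))⟩
  obtain ⟨m, hm, hm'⟩ := wellFounded_lt.has_min _ (h.sdiff hf).nonempty
  refine hm.2 ⟨hm.1, hf.subset fun y hy => ?_⟩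
  by_contra hc
  exact hm' y ⟨hy.1, hc⟩ hy.2

theorem winG : MarkovWin 𝒜 (GC ℬ) := by
  have h0 : ∀ A : Set X, ∃ x : D, A ∈ 𝒜 → (x : X) ∉ A := fun A => by
    by_cases h : A ∈ 𝒜
    · obtain ⟨x, hx⟩ := exists_out h.1
      exact ⟨x, fun _ => hx⟩
    · obtain ⟨x, -⟩ := exists_out countable_empty
      exact ⟨x, fun hh => absurd hh h⟩
  choose p hp using h0
  refine ⟨fun A _ => {(p A : X)}ᶜ, fun A hA _ => ⟨isOpen_compl_singleton,
    subset_compl_singleton_iff.2 (hp A hA), by simp⟩, fun A _ ⟨h1, _, _, _, h2⟩ => ?_⟩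
  have h3 : (range fun n => p (A n)).Infinite := fun hf => h1 (by
    refine (hf.image fun x : D => ({(x : X)}ᶜ : Set X)).subset ?_
    rintro _ ⟨n, rfl⟩
    exact ⟨_, ⟨n, rfl⟩, rfl⟩)
  obtain ⟨B, a1, a2, a3⟩ := tall h3
  refine (a2.image (f := fun x : D => ({(x : X)}ᶜ : Set X)) fun x _ y _ h => ?_)
    ((h2 _ ⟨B, rfl, a3⟩).subset ?_)
  · simpa using h
  · rintro _ ⟨x, hx, rfl⟩
    obtain ⟨n, rfl⟩ := a1 hx
    exact ⟨⟨n, rfl⟩, fun h => h ⟨_, hx, rfl⟩ rfl⟩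

theorem not_winO : ¬ MarkovWin 𝒜 (OC ℬ) := by
  rintro ⟨τ, h1, h2⟩
  have hi : ∀ A ∈ 𝒜, ∀ n, OnePoint.infty ∈ τ A n := fun A hA n => (h1 A hA n).2.1 hA.2
  have hc : ∀ A ∈ 𝒜, ∀ n, (τ A n)ᶜ.Countable := fun A hA n => by
    refine ((fin_compl (h1 A hA n).1 (hi A hA n)).image OnePoint.some).countable.mono fun y hy => ?_
    induction y using OnePoint.rec with
    | infty => exact absurd (hi A hA n) hy
    | coe x => exact ⟨x, hy, rfl⟩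
  let S : ℕ → Set X := fun n => Nat.rec {OnePoint.infty} (fun n A => A ∪ (τ A (n + 1))ᶜ) n
  have hS : ∀ n, S n ∈ 𝒜 := fun n => by
    induction n with
    | zero => exact ⟨countable_singleton _, rfl⟩
    | succ n ih => exact ⟨ih.1.union (hc _ ih _), Or.inl ih.2⟩
  have hm : Monotone S := monotone_nat_of_le_succ fun n => subset_union_left
  let T : Set X := {OnePoint.infty} ∪ ⋃ e ∈ {e : D | (e : X) ∈ ⋃ n, S n}, OnePoint.some '' Iic e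
  have hT : T ∈ 𝒜 := ⟨(countable_singleton _).union (((countable_iUnion fun n =>
    (hS n).1).preimage_of_injOn OnePoint.coe_injective.injOn).biUnion fun e _ => (cnt e).image _),
    Or.inl rfl⟩
  let A : ℕ → Set X := fun n => Nat.casesOn n T S
  have hA : ∀ n, A n ∈ 𝒜 := fun n => by cases n; exacts [hT, hS _]
  refine h2 A hA ⟨?_, ?_, ?_, ?_⟩
  · rintro _ ⟨n, rfl⟩
    exact (h1 _ (hA n) n).1
  · refine eq_univ_of_forall fun y => ?_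
    by_cases hy : y ∈ τ (S 0) 1
    · exact ⟨_, ⟨1, rfl⟩, hy⟩
    · exact ⟨_, ⟨2, rfl⟩, (h1 _ (hS 1) 2).2.1 (Or.inr hy)⟩
  · rintro ⟨n, hn⟩
    exact (h1 _ (hA n) n).2.2 hn
  · rintro _ ⟨E, rfl, hE⟩
    by_contra hh
    push Not at hh
    have h3 : ∀ n, ∃ x ∈ E, (x : X) ∉ τ (A n) n := fun n => by
      obtain ⟨_, ⟨x, hx, rfl⟩, h⟩ := not_subset.1 (hh _ ⟨n, rfl⟩)
      exact ⟨x, hx, h⟩
    choose x h4 h5 using h3
    have h6 : ∀ n, (x (n + 1) : X) ∈ S (n + 1) := fun n => Or.inr (h5 (n + 1))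
    have h7 : ∀ n, (x (n + 1) : X) ∉ S n := fun n h => h5 (n + 1) ((h1 _ (hS n) _).2.1 h)
    have h8 : ∀ i j, i < j → x (i + 1) ≠ x (j + 1) := fun i j h e => h7 j (e ▸ hm h (h6 i))
    refine infinite_of_injective_forall_mem (s := E ∩ Iio (x 0)) (f := fun n => x (n + 1))
      (fun i j h => ?_)
      (fun n => ⟨h4 _, ?_⟩) (hE _ (h4 0))
    · rcases lt_trichotomy i j with a | a | a
      exacts [absurd h (h8 i j a), a, absurd h.symm (h8 j i a)]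
    · by_contra hlt
      exact h5 0 ((h1 _ hT 0).2.1 (Or.inr (mem_biUnion (mem_iUnion.2 ⟨n + 1, h6 n⟩)
        ⟨_, mem_Iic.2 (not_lt.1 hlt), rfl⟩)))

theorem result : ∃ (X : Type) (_ : TopologicalSpace X) (𝒜 ℬ : Set (Set X)),
    CompactSpace X ∧ T2Space X ∧ 𝒜.Nonempty ∧ IdealBase 𝒜 ∧
    (∀ A ∈ 𝒜, ∃ U, IsOpen U ∧ A ⊆ U ∧ U ≠ univ) ∧
    MarkovWin 𝒜 (GC ℬ) ∧ ¬ MarkovWin 𝒜 (OC ℬ) := by
  refine ⟨X, inferInstance, 𝒜, ℬ, inferInstance, inferInstance,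
    ⟨_, countable_singleton _, rfl⟩, fun A hA B hB => ⟨_, ⟨hA.1.union hB.1, Or.inl hA.2⟩,
      Subset.rfl⟩, fun A hA => ?_, winG, not_winO⟩
  obtain ⟨τ, h, -⟩ := winG
  exact ⟨_, h A hA 0⟩

end Pool.Agent.Results.MP_953c35_gt.No
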